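import Pool.Agent.H19.STAT.Sys2L
import Pool.Agent.H52.TIE.Few

/-!
# The visible labels do not see the direction

`FRQ`: `Dv` is the direction, `r i j` a visible record which is a function of the context and of the
exact time. The context `c i j` is given, up to few bits, by the direction, the record and the label
at the point. All the labels at the point of the grid together (`sg`) have little information about
the direction, given the record at `(0, 0)` and the exact time.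

Consequence: the contexts at finitely many places have little information about all the visible
labels, given the records and the labels at these places.
-/

set_option autoImplicit false

namespace Pool.STAT

open Finset
open Pool.Agent.H49.Ent Pool.Agent.H32.Dense Pool.STK
open Pool.K2S (cpn)

namespace NDat2

/-- All the labels at the point. -/
def sg (D : NDat2) (M : ℕ) (ω : D.Ω) (t : Fin (M + 1) × Fin (M + 1)) : D.S :=
  D.s (t.1 : ℕ) (t.2 : ℕ) ω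

/-- The records at the places of `A`. -/
def rA (D : NDat2) {𝓡 : Type} (r : ℕ → ℕ → D.Ω → 𝓡) (A : Finset (ℕ × ℕ)) (ω : D.Ω) (t : A) : 𝓡 :=
  r t.1.1 t.1.2 ω

/-- The labels at the places of `A`. -/
def sA (D : NDat2) (A : Finset (ℕ × ℕ)) (ω : D.Ω) (t : A) : D.S := D.s t.1.1 t.1.2 ω

/-- The contexts at the places of `A`. -/
def cA (D : NDat2) (A : Finset (ℕ × ℕ)) (ω : D.Ω) (t : A) : D.Γ := D.c t.1.1 t.1.2 ω

/-- The records and the labels at the places of `A`, and the exact time. -/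
def vr (D : NDat2) {𝓡 : Type} (r : ℕ → ℕ → D.Ω → 𝓡) (A : Finset (ℕ × ℕ)) (ω : D.Ω) :
    (A → 𝓡) × ((A → D.S) × ℕ) := (D.rA r A ω, (D.sA A ω, D.T ω))

/-- **The direction is free.** -/
structure FRQ (D : NDat2) (M z : ℕ) (C₁ : ℝ) (q : D.Ω → ℝ) {Δ 𝓡 : Type} (Dv : D.Ω → Δ)
    (r : ℕ → ℕ → D.Ω → 𝓡) : Prop where
  pt : ∀ i ≤ M, ∀ j ≤ M, Det q D.pt (r i j)
  ct : ∀ i ≤ M, ∀ j ≤ M, Det q (fun ω => (D.c i j ω, D.T ω)) (r i j)
  ctx : ∀ i ≤ M, ∀ j ≤ M, CH q (D.c i j) (fun ω => (Dv ω, (r i j ω, (D.s i j ω, D.T ω)))) ≤ C₁ * z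
  low : ∀ i ≤ M, ∀ j ≤ M, Det q (r i j) (r 0 0)
  fine : ∀ i ≤ M, ∀ j ≤ M, CH q (r i j) (fun ω => (r 0 0 ω, (D.sg M ω, D.T ω))) ≤ C₁ * z
  free : CH q Dv (fun ω => (r 0 0 ω, D.T ω)) ≤
    CH q Dv (fun ω => (D.sg M ω, (r 0 0 ω, D.T ω))) + C₁ * z

section mi

variable {D : NDat2} {M z : ℕ} {C₁ : ℝ} {q : D.Ω → ℝ} {Δ 𝓡 : Type} {Dv : D.Ω → Δ}
  {r : ℕ → ℕ → D.Ω → 𝓡} {A : Finset (ℕ × ℕ)}

/-- A family of few variables. -/
theorem CH_few (hq : ∀ ω, 0 ≤ q ω) {S U : Type} {ι : Type} [Fintype ι] (X : D.Ω → ι → S)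
    (W : D.Ω → U) {C : ℝ} (h : ∀ t, CH q (fun ω => X ω t) W ≤ C) :
    CH q X W ≤ Fintype.card ι * C := by
  refine (Pool.KS3.CH_pi_le hq X W).trans ?_
  refine (Finset.sum_le_sum fun t _ => h t).trans ?_
  rw [Finset.sum_const, Finset.card_univ, nsmul_eq_mul]

/-- **The contexts have little information about the visible labels.** -/
theorem FRQ.mi (h : D.FRQ M z C₁ q Dv r) (hq : IsLaw q) (hC : 0 ≤ C₁)
    (hA : ∀ t ∈ A, t.1 ≤ M ∧ t.2 ≤ M) :
    CH q (D.sg M) (D.vr r A) ≤ CH q (D.sg M) (fun ω => (D.cA A ω, D.vr r A ω)) +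
      (2 * #A + 1) * (C₁ * z) := by
  classical
  have h0 := hq.nonneg
  have hz : 0 ≤ C₁ * (z : ℝ) := mul_nonneg hC (Nat.cast_nonneg z)
  rcases A.eq_empty_or_nonempty with hE | ⟨t0, ht0⟩
  · -- no place
    have e1 : CH q (D.sg M) (D.vr r A) ≤ CH q (D.sg M) (fun ω => (D.cA A ω, D.vr r A ω)) := by
      refine CH_mono_cond h0 fun ω ω' _ _ e => ?_
      refine Prod.ext ?_ e
      funext t
      exact absurd t.2 (Finset.eq_empty_iff_forall_notMem.1 hE _)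
    have e2 : (0 : ℝ) ≤ (2 * #A + 1) * (C₁ * z) := mul_nonneg (by positivity) hz
    linarith
  -- the symmetric form
  have b1 := CH_bayes h0 (D.sg M) (fun ω => (D.cA A ω, Dv ω)) (D.vr r A)
  have b2 : CH q (D.sg M) (fun ω => ((D.cA A ω, Dv ω), D.vr r A ω)) ≤
      CH q (D.sg M) (fun ω => (D.cA A ω, D.vr r A ω)) :=
    CH_mono_cond h0 fun ω ω' _ _ e => by
      simp only [Prod.mk.injEq] at e ⊢
      exact ⟨e.1.1, e.2⟩
  have b3 := CH_chain h0 (D.cA A) Dv (D.vr r A)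
  have b4 := CH_chain h0 (D.cA A) Dv (fun ω => (D.sg M ω, D.vr r A ω))
  have b5 := CH_nonneg h0 (D.cA A) (fun ω => (Dv ω, (D.sg M ω, D.vr r A ω)))
  -- the contexts
  have c1 : CH q (D.cA A) (fun ω => (Dv ω, D.vr r A ω)) ≤ #A * (C₁ * z) := by
    have e1 := CH_few h0 (D.cA A) (fun ω => (Dv ω, D.vr r A ω)) (C := C₁ * z) fun t => by
      refine le_trans ?_ (h.ctx t.1.1 (hA t.1 t.2).1 t.1.2 (hA t.1 t.2).2)
      refine CH_mono_cond h0 fun ω ω' _ _ e => ?_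
      obtain ⟨e1, e2⟩ := Prod.ext_iff.1 e
      obtain ⟨e3, e4⟩ := Prod.ext_iff.1 e2
      obtain ⟨e5, e6⟩ := Prod.ext_iff.1 e4
      exact Prod.ext e1 (Prod.ext (congrFun e3 t) (Prod.ext (congrFun e5 t) e6))
    rwa [Fintype.card_coe] at e1
  -- the records
  have c2 : CH q (D.rA r A) (fun ω => (D.sg M ω, (r 0 0 ω, D.T ω))) ≤ #A * (C₁ * z) := by
    have e1 := CH_few h0 (D.rA r A) (fun ω => (D.sg M ω, (r 0 0 ω, D.T ω))) (C := C₁ * z)
      fun t => by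
        refine le_trans ?_ (h.fine t.1.1 (hA t.1 t.2).1 t.1.2 (hA t.1 t.2).2)
        refine CH_mono_cond h0 fun ω ω' _ _ e => ?_
        obtain ⟨e1, e2⟩ := Prod.ext_iff.1 e
        obtain ⟨e3, e4⟩ := Prod.ext_iff.1 e2
        exact Prod.ext e3 (Prod.ext e1 e4)
    rwa [Fintype.card_coe] at e1
  have c3 := CH_le_add h0 Dv (D.rA r A) (fun ω => (D.sg M ω, (r 0 0 ω, D.T ω)))
  have c4 : CH q Dv (fun ω => (D.rA r A ω, (D.sg M ω, (r 0 0 ω, D.T ω)))) ≤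
      CH q Dv (fun ω => (D.sg M ω, D.vr r A ω)) := by
    refine CH_mono_cond h0 fun ω ω' _ _ e => ?_
    obtain ⟨e1, e2⟩ := Prod.ext_iff.1 e
    obtain ⟨e3, e4⟩ := Prod.ext_iff.1 e2
    refine Prod.ext e3 (Prod.ext e1 (Prod.ext ?_ (Prod.ext_iff.1 e4).2))
    funext t
    have ht := hA t.1 t.2
    exact congrFun e3 (⟨t.1.1, Nat.lt_succ_of_le ht.1⟩, ⟨t.1.2, Nat.lt_succ_of_le ht.2⟩)
  have c5 : CH q Dv (D.vr r A) ≤ CH q Dv (fun ω => (r 0 0 ω, D.T ω)) := by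
    refine CH_mono_cond h0 fun ω ω' a b e => ?_
    obtain ⟨e1, e2⟩ := Prod.ext_iff.1 e
    have ht := hA t0 ht0
    exact Prod.ext (h.low t0.1 ht.1 t0.2 ht.2 ω ω' a b (congrFun e1 ⟨t0, ht0⟩))
      (Prod.ext_iff.1 e2).2
  have c6 := h.free
  linarith

/-- **The same for a visible variable.** -/
theorem FRQ.vis (h : D.FRQ M z C₁ q Dv r) (hq : IsLaw q) (hC : 0 ≤ C₁)
    (hA : ∀ t ∈ A, t.1 ≤ M ∧ t.2 ≤ M) {S : Type} (V : D.Ω → S)
    (hV : Det q (fun ω => (D.sg M ω, D.vr r A ω)) V) :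
    CH q V (D.vr r A) ≤ CH q V (fun ω => (D.cA A ω, D.vr r A ω)) +
      (2 * #A + 1) * (C₁ * z) := by
  have h0 := hq.nonneg
  have b1 := h.mi hq hC hA
  -- the pair of all the labels and of `V` is all the labels
  have b2 : ∀ {U : Type} (W : D.Ω → U), Det q W (D.vr r A) →
      CH q (D.sg M) W = CH q V W + CH q (D.sg M) (fun ω => (V ω, W ω)) := by
    intro U W hW
    rw [← CH_chain h0]
    refine CH_congr h0 (fun ω ω' a b e => ?_) (fun ω ω' _ _ e => ?_) (fun _ _ _ _ e => e)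
      (fun _ _ _ _ e => e)
    · obtain ⟨e1, e2⟩ := Prod.ext_iff.1 e
      exact Prod.ext e1 (hV ω ω' a b (Prod.ext e1 (hW ω ω' a b e2)))
    · exact (Prod.ext_iff.1 (Prod.ext_iff.1 e).1).1
  have b3 := b2 (D.vr r A) (fun _ _ _ _ e => e)
  have b4 := b2 (fun ω => (D.cA A ω, D.vr r A ω)) (fun _ _ _ _ e => (Prod.ext_iff.1 e).2)
  have b5 : CH q (D.sg M) (fun ω => (V ω, (D.cA A ω, D.vr r A ω))) ≤
      CH q (D.sg M) (fun ω => (V ω, D.vr r A ω)) :=
    CH_mono_cond h0 fun ω ω' _ _ e => by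
      simp only [Prod.mk.injEq] at e ⊢
      exact ⟨e.1, e.2.2⟩
  linarith

/-- **A closed variable which is determined by few visible copies is visible**, up to few bits. -/
theorem FRQ.few (h : D.FRQ M z C₁ q Dv r) (hq : IsLaw q) (hC : 0 ≤ C₁)
    (hA : ∀ t ∈ A, t.1 ≤ M ∧ t.2 ≤ M) {S S' : Type} (V : D.Ω → S)
    (hV : Det q (fun ω => (D.sg M ω, D.vr r A ω)) V) (F : D.Ω → S') {e : ℝ}
    (hF : CH q F (fun ω => (D.cA A ω, D.vr r A ω)) ≤ e) (m : ℕ) :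
    CH q F (D.vr r A) ≤ (m + 1) * ((2 * #A + 1) * (C₁ * z) + e) +
      CH (cpn q (fun ω => (F ω, D.vr r A ω)) m) (fun w => F (w 0))
        (fun w => ((fun i => V (w i)), D.vr r A (w 0))) := by
  have h0 := hq.nonneg
  have b1 := Pool.H52.TIE.few_copies hq F V (D.vr r A) m
  have b2 := h.vis hq hC hA V hV
  have b3 := CH_bayes h0 V F (fun ω => (D.cA A ω, D.vr r A ω))
  have b4 := CH_nonneg h0 F (fun ω => (V ω, (D.cA A ω, D.vr r A ω)))
  have b5 : CH q V (fun ω => (F ω, (D.cA A ω, D.vr r A ω))) ≤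
      CH q V (fun ω => (F ω, D.vr r A ω)) :=
    CH_mono_cond h0 fun ω ω' _ _ e => by
      simp only [Prod.mk.injEq] at e ⊢
      exact ⟨e.1, e.2.2⟩
  have b6 : CH q V (D.vr r A) - CH q V (fun ω => (F ω, D.vr r A ω)) ≤
      (2 * #A + 1) * (C₁ * z) + e := by linarith
  have b7 := mul_le_mul_of_nonneg_left b6 (show (0 : ℝ) ≤ (m : ℝ) + 1 by positivity)
  linarith

end mi

/-- The direction is free, for some direction and some records: a property of the cell. -/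
def FRQX (D : NDat2) (M z : ℕ) (C₁ : ℝ) (q : D.Ω → ℝ) : Prop :=
  ∃ (Δ 𝓡 : Type) (Dv : D.Ω → Δ) (r : ℕ → ℕ → D.Ω → 𝓡), D.FRQ M z C₁ q Dv r

theorem FRQX.mono {D : NDat2} {M z : ℕ} {C₁ C₂ : ℝ} {q : D.Ω → ℝ} (h : D.FRQX M z C₁ q)
    (hC : C₁ ≤ C₂) : D.FRQX M z C₂ q := by
  obtain ⟨Δ, 𝓡, Dv, r, h⟩ := h
  have hz : C₁ * (z : ℝ) ≤ C₂ * z := mul_le_mul_of_nonneg_right hC (Nat.cast_nonneg z)
  exact ⟨Δ, 𝓡, Dv, r, h.pt, h.ct, fun i hi j hj => (h.ctx i hi j hj).trans hz, h.low,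
    fun i hi j hj => (h.fine i hi j hj).trans hz, h.free.trans (by linarith)⟩

end NDat2

end Pool.STAT
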